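import Pool.Agent.Helper95.PM.Stmts

/-!
# Ground states of neutral molecules
-/

set_option autoImplicit false

namespace Pool.Agent.Helper95.PW

open MeasureTheory Filter

/-- repulsion of the nuclei -/
noncomputable def nuc {M : ℕ} (X : Fin M → R3) (Z : Fin M → ℕ) : ℝ :=
  ∑ i, ∑ j, if i < j then (Z i : ℝ) * (Z j : ℝ) / nr (X i - X j) else 0

/-- potential energy of the molecule -/
noncomputable def Vmol {n M : ℕ} (X : Fin M → R3) (Z : Fin M → ℕ) (x : Cf n) : ℝ :=
  rep x - (∑ k, ∑ j, (Z j : ℝ) / nr (x k - X j)) + nuc X Z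

/-- `φ` (with weak gradient `G`) is a real normalized ground state, with ground state energy `E`,
of the neutral molecule with nuclei of charges `Z j` at the distinct points `X j` and `n`
electrons: `φ` is antisymmetric, in `H^2` (closure of the smooth compactly supported functions),
`H φ = E φ` almost everywhere, and `E` is the bottom of the spectrum. -/
structure MolGround (n : ℕ) {M : ℕ} (X : Fin M → R3) (Z : Fin M → ℕ) (E : ℝ) (φ : Wf n)
    (G : Fin n → Fin 3 → Wf n) : Prop where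
  distinct : Function.Injective X
  charge : ∀ j, 1 ≤ Z j
  neutral : ∑ j, Z j = n
  lp : ∀ s, MemLp (φ s) 2
  lpG : ∀ k i s, MemLp (G k i s) 2
  anti : ∀ (π : Equiv.Perm (Fin n)) (s : Fin n → Fin 2), ∀ᵐ x : Cf n,
    φ (fun i => s (π i)) (fun i => x (π i)) = ((Equiv.Perm.sign π : ℤ) : ℝ) * φ s x
  norm : sq φ = 1
  low : ∀ ψ : Wf n, Sm ψ → Anti ψ → E * sq ψ ≤ kin ψ + ∑ s, ∫ x, Vmol X Z x * ψ s x ^ 2
  eigen : ∃ (S : Fin n → Fin 3 → Fin n → Fin 3 → Wf n) (u : ℕ → Wf n),
    (∀ k i l m s, MemLp (S k i l m s) 2) ∧ (∀ j, Sm (u j)) ∧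
    Tendsto (fun j => sq (fun s x => u j s x - φ s x)) atTop (nhds 0) ∧
    (∀ k i, Tendsto (fun j => sq (fun s x => dv k i (u j s) x - G k i s x)) atTop (nhds 0)) ∧
    (∀ k i l m, Tendsto (fun j => sq (fun s x => dv k i (dv l m (u j s)) x - S k i l m s x))
      atTop (nhds 0)) ∧
    ∀ s, ∀ᵐ x : Cf n, -(∑ k, ∑ i, S k i k i s x) + Vmol X Z x * φ s x = E * φ s x

theorem mol_nuc {n M : ℕ} {X : Fin M → R3} {Z : Fin M → ℕ} {E : ℝ} {φ : Wf n}
    {G : Fin n → Fin 3 → Wf n} (h : MolGround n X Z E φ G) : Nuc n (fun j => (Z j : ℝ)) := by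
  refine ⟨fun j => Nat.cast_nonneg _, ?_⟩
  have h1 := h.neutral
  change ∑ j, (Z j : ℝ) = (n : ℝ)
  rw [← h1]
  push_cast
  rfl

/-- the constant `nuc` shifts the energy only -/
theorem mol_ground (hI : ST_INTM) {n M : ℕ} {X : Fin M → R3} {Z : Fin M → ℕ} {E : ℝ} {φ : Wf n}
    {G : Fin n → Fin 3 → Wf n} (h : MolGround n X Z E φ G) :
    GroundM n X (fun j => (Z j : ℝ)) (E - nuc X Z) φ G where
  lp := h.lp
  lpG := h.lpG
  anti := h.anti
  norm := h.norm
  low := by
    intro ψ hψ ha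
    have h1 := h.low ψ hψ ha
    have h2 : ∑ s, ∫ x, Vmol X Z x * ψ s x ^ 2 =
        pair ψ - one (pot X (fun j => (Z j : ℝ))) ψ + nuc X Z * sq ψ := by
      unfold pair one sq
      rw [Finset.mul_sum, ← Finset.sum_sub_distrib, ← Finset.sum_add_distrib]
      refine Finset.sum_congr rfl fun s _ => ?_
      obtain ⟨i1, i2, -, -⟩ := hI n M X (fun j => (Z j : ℝ)) (ψ s) (ψ s) (hψ s).1 (hψ s).2
        (hψ s).1 (hψ s).2
      have i3 : Integrable (fun x => ψ s x * ψ s x) :=
        (((hψ s).1.continuous).mul ((hψ s).1.continuous)).integrable_of_hasCompactSupport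
          (hψ s).2.mul_left
      have e1 : ∀ x, Vmol X Z x * ψ s x ^ 2 =
          (rep x * (ψ s x * ψ s x) - (∑ k, pot X (fun j => (Z j : ℝ)) (x k)) * (ψ s x * ψ s x)) +
            nuc X Z * (ψ s x * ψ s x) := by
        intro x
        unfold Vmol pot
        ring
      have e2 : ∀ x, rep x * ψ s x ^ 2 = rep x * (ψ s x * ψ s x) := fun x => by ring
      have e3 : ∀ x, (∑ k, pot X (fun j => (Z j : ℝ)) (x k)) * ψ s x ^ 2 =
          (∑ k, pot X (fun j => (Z j : ℝ)) (x k)) * (ψ s x * ψ s x) := fun x => by ring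
      have e4 : ∀ x, ψ s x ^ 2 = ψ s x * ψ s x := fun x => by ring
      simp only [e1, e2, e3]
      have i4 : Integrable (fun x => rep x * (ψ s x * ψ s x) -
          (∑ k, pot X (fun j => (Z j : ℝ)) (x k)) * (ψ s x * ψ s x)) := i2.sub i1
      rw [integral_add i4 (i3.const_mul _), integral_sub i2 i1, integral_const_mul]
      simp only [e4]
    rw [h2] at h1
    unfold QM
    linarith
  eigen := by
    obtain ⟨S, u, h1, h2, h3, h4, h5, h6⟩ := h.eigen
    refine ⟨S, u, h1, h2, h3, h4, h5, fun s => ?_⟩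
    filter_upwards [h6 s] with x hx
    unfold Vmol at hx
    have e : ∑ k, pot X (fun j => (Z j : ℝ)) (x k) = ∑ k, ∑ j, (Z j : ℝ) / nr (x k - X j) := rfl
    rw [e]
    linarith

end Pool.Agent.Helper95.PW
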