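import Pool.Agent.Helper95.PW.Stmts

/-!
# All molecules: definitions and statements of the rows
-/

set_option autoImplicit false

namespace Pool.Agent.Helper95.PW

open MeasureTheory Filter

/-- attraction by nuclei at `X j` with charges `Z j` -/
noncomputable def pot {M : ℕ} (X : Fin M → R3) (Z : Fin M → ℝ) (y : R3) : ℝ :=
  ∑ j, Z j / nr (y - X j)

/-- quadratic form (electronic) -/
noncomputable def QM {n M : ℕ} (X : Fin M → R3) (Z : Fin M → ℝ) (u : Wf n) : ℝ :=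
  kin u + pair u - one (pot X Z) u

/-- bilinear form -/
noncomputable def QbM {n M : ℕ} (X : Fin M → R3) (Z : Fin M → ℝ) (u v : Wf n) : ℝ :=
  (∑ k, ∑ i, ip (fun s => dv k i (u s)) (fun s => dv k i (v s))) +
    ∑ s, ∫ x, (rep x - ∑ k, pot X Z (x k)) * (u s x * v s x)

/-- the electronic Hamiltonian -/
noncomputable def hmM {n M : ℕ} (X : Fin M → R3) (Z : Fin M → ℝ) (v : Cf n → ℝ) (x : Cf n) : ℝ :=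
  -(∑ k, ∑ i, dv k i (dv k i v) x) + (rep x - ∑ k, pot X Z (x k)) * v x

/-- `E` is a lower bound of the electronic energy -/
def LowM (n : ℕ) {M : ℕ} (X : Fin M → R3) (Z : Fin M → ℝ) (E : ℝ) : Prop :=
  ∀ ψ : Wf n, Sm ψ → Anti ψ → E * sq ψ ≤ QM X Z ψ

/-- square of the norm of `(H - E) u` -/
noncomputable def resM {n M : ℕ} (X : Fin M → R3) (Z : Fin M → ℝ) (E : ℝ) (u : Wf n) : ℝ :=
  sq (fun s x => hmM X Z (u s) x - E * u s x)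

/-- nonnegative charges of total charge `n` -/
def Nuc (n : ℕ) {M : ℕ} (Z : Fin M → ℝ) : Prop := (∀ j, 0 ≤ Z j) ∧ ∑ j, Z j = n

/-- ground state of the electronic Hamiltonian -/
structure GroundM (n : ℕ) {M : ℕ} (X : Fin M → R3) (Z : Fin M → ℝ) (E : ℝ) (φ : Wf n)
    (G : Fin n → Fin 3 → Wf n) : Prop where
  lp : ∀ s, MemLp (φ s) 2
  lpG : ∀ k i s, MemLp (G k i s) 2
  anti : ∀ (π : Equiv.Perm (Fin n)) (s : Fin n → Fin 2), ∀ᵐ x : Cf n,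
    φ (fun i => s (π i)) (fun i => x (π i)) = ((Equiv.Perm.sign π : ℤ) : ℝ) * φ s x
  norm : sq φ = 1
  low : LowM n X Z E
  eigen : ∃ (S : Fin n → Fin 3 → Fin n → Fin 3 → Wf n) (u : ℕ → Wf n),
    (∀ k i l m s, MemLp (S k i l m s) 2) ∧ (∀ j, Sm (u j)) ∧
    Tendsto (fun j => sq (fun s x => u j s x - φ s x)) atTop (nhds 0) ∧
    (∀ k i, Tendsto (fun j => sq (fun s x => dv k i (u j s) x - G k i s x)) atTop (nhds 0)) ∧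
    (∀ k i l m, Tendsto (fun j => sq (fun s x => dv k i (dv l m (u j s)) x - S k i l m s x))
      atTop (nhds 0)) ∧
    ∀ s, ∀ᵐ x : Cf n,
      -(∑ k, ∑ i, S k i k i s x) + (rep x - ∑ k, pot X Z (x k)) * φ s x = E * φ s x

/-- indicator of a ball with centre `a` -/
noncomputable def ballc (a : R3) (R : ℝ) : R3 → ℝ := Set.indicator {y | nr (y - a) ≤ R} (fun _ => 1)

/-- indicator of a set -/
noncomputable def ind (S : Set R3) : R3 → ℝ := Set.indicator S (fun _ => 1)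

/-- neighbourhood of the nuclei -/
def Nb {M : ℕ} (X : Fin M → R3) (R : ℝ) : Set R3 := {y | ∃ j, nr (y - X j) ≤ R}

/-- cut off function: gradient `e_m` near the nuclei, zero far away -/
structure IsCut {M : ℕ} (X : Fin M → R3) (m : Fin 3) (K R : ℝ) (G : R3 → ℝ) : Prop where
  sc : Scale G K R
  near : ∀ (j : Fin M) (y : R3), nr (y - X j) ≤ R → ∀ i, pd i G y = if i = m then 1 else 0
  far : ∀ y : R3, (∀ j, 2 * R < nr (y - X j)) → G y = 0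

/-! ### rows -/

def ST_HA3 : Prop := ∀ (n : ℕ) (k : Fin n) (a : R3) (v : Cf n → ℝ),
  ContDiff ℝ (⊤ : ℕ∞) v → HasCompactSupport v →
  Integrable (fun x : Cf n => v x ^ 2 / nr (x k - a) ^ 2) ∧
  ∫ x, v x ^ 2 / nr (x k - a) ^ 2 ≤ 4 * ∫ x, ∑ i, dv k i v x ^ 2

def ST_INTM : Prop := ∀ (n M : ℕ) (X : Fin M → R3) (Z : Fin M → ℝ) (v w : Cf n → ℝ),
  ContDiff ℝ (⊤ : ℕ∞) v → HasCompactSupport v → ContDiff ℝ (⊤ : ℕ∞) w → HasCompactSupport w →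
  Integrable (fun x : Cf n => (∑ k, pot X Z (x k)) * (v x * w x)) ∧
  Integrable (fun x : Cf n => rep x * (v x * w x)) ∧
  Integrable (fun x : Cf n => ((∑ k, pot X Z (x k)) * v x) ^ 2) ∧
  Integrable (fun x : Cf n => (rep x * v x) ^ 2)

def ST_NRM : Prop := ∃ C : ℝ, 0 < C ∧ ∀ (n : ℕ) (u : Wf n) (a : R3), Sm u → Anti u → sq u ≤ 2 →
  ∀ R : ℝ, 0 < R → one (ballc a R) u ≤ C * (1 + (kin u * R ^ 2) ^ (3 / 5 : ℝ))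

def ST_ATTM : Prop := ∃ C : ℝ, 0 < C ∧ ∀ (n : ℕ) (u : Wf n) (a : R3), 1 ≤ n → Sm u → Anti u →
  sq u ≤ 2 → one (fun y => 1 / nr (y - a)) u ≤ C * (n : ℝ) ^ (1 / 6 : ℝ) * Real.sqrt (kin u)

def ST_TUPM : Prop := ∃ C : ℝ, 0 < C ∧ ∀ (n M : ℕ) (X : Fin M → R3) (Z : Fin M → ℝ) (u : Wf n),
  1 ≤ n → Nuc n Z → Sm u → Anti u → sq u ≤ 2 → QM X Z u ≤ 1 →
  kin u ≤ C * (n : ℝ) ^ (7 / 3 : ℝ) ∧ pair u ≤ C * (n : ℝ) ^ (7 / 3 : ℝ) ∧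
  one (pot X Z) u ≤ C * (n : ℝ) ^ (7 / 3 : ℝ)

def ST_QHM : Prop := ∀ (n M : ℕ) (X : Fin M → R3) (Z : Fin M → ℝ) (u v : Wf n), Sm u → Sm v →
  QbM X Z u v = (∑ s, ∫ x, v s x * hmM X Z (u s) x) ∧ QM X Z u = QbM X Z u u

def ST_CSQM : Prop := ∀ (n M : ℕ) (X : Fin M → R3) (Z : Fin M → ℝ) (E : ℝ) (u v : Wf n),
  LowM n X Z E → Sm u → Anti u → Sm v → Anti v →
  (QbM X Z u v - E * ip u v) ^ 2 ≤ (QM X Z u - E * sq u) * (QM X Z v - E * sq v)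

def ST_HFM : Prop := ∀ (n M : ℕ) (X : Fin M → R3) (Z : Fin M → ℝ) (g : R3 → ℝ) (v : Cf n → ℝ)
  (x : Cf n), ContDiff ℝ (⊤ : ℕ∞) g → ContDiff ℝ (⊤ : ℕ∞) v →
  hmM X Z (Fg g v) x = (∑ k, g (x k)) * hmM X Z v x - 2 * Pg g v x

def ST_AIDM : Prop := ∀ (n M : ℕ) (X : Fin M → R3) (Z : Fin M → ℝ) (E : ℝ) (g : R3 → ℝ)
  (u : Wf n), ContDiff ℝ (⊤ : ℕ∞) g → Sm u →
  QM X Z (fun s => Fg g (u s)) - E * sq (fun s => Fg g (u s)) =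
    (∑ s, ∫ x, Fg g (Fg g (u s)) x * (hmM X Z (u s) x - E * u s x)) + one (grd g) u

def ST_CIDM : Prop := ∀ (n M : ℕ) (X : Fin M → R3) (Z : Fin M → ℝ) (E : ℝ) (g : R3 → ℝ)
  (u : Wf n), ContDiff ℝ (⊤ : ℕ∞) g → Sm u →
  QbM X Z (fun s => Fg g (u s)) (fun s => Pg g (u s)) -
      E * ip (fun s => Fg g (u s)) (fun s => Pg g (u s)) =
    (∑ s, ∫ x, Fg g (Pg g (u s)) x * (hmM X Z (u s) x - E * u s x)) -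
      2 * sq (fun s => Pg g (u s))

def ST_KINM : Prop := ∃ C : ℝ, 0 < C ∧ ∀ (n : ℕ) (g : R3 → ℝ) (K r : ℝ) (S : Set R3) (u : Wf n),
  Scale g K r → 0 < r → IsClosed S → (∀ y, y ∉ S → ∀ i, pd i g y = 0) → Sm u →
  kin (fun s => Pg g (u s)) -
      (∑ s, ∫ x, Pg g (Pg g (u s)) x * ∑ k, ∑ i, dv k i (dv k i (u s)) x) ≤
    C * K ^ 2 * (kin u / r ^ 2 + one (ind S) u / r ^ 4)

/-- shell, one nucleus at `a` -/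
def ST_PONM : Prop := ∃ C : ℝ, 0 < C ∧ ∀ (n : ℕ) (g : R3 → ℝ) (K r : ℝ) (a : R3) (u : Wf n),
  Scale g K r → 0 < r → (∀ y, nr (y - a) < r → ∀ i, pd i g y = 0) → Sm u →
  -(one (fun y => 1 / nr (y - a)) (fun s => Pg g (u s)) +
      (∑ s, ∫ x, (∑ k, 1 / nr (x k - a)) * (Pg g (Pg g (u s)) x * u s x))) ≤
    C * K ^ 2 / r ^ 2 * one (fun y => 1 / nr (y - a)) u

/-- inner ball, one nucleus at `a` -/
def ST_PINM : Prop := ∃ C : ℝ, 0 < C ∧ ∀ (n : ℕ) (g : Fin 3 → R3 → ℝ) (K R B : ℝ) (a : R3)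
  (u : Wf n), (∀ m, Scale (g m) K R) → 0 < R →
  (∀ m y, nr (y - a) < R → ∀ i, pd i (g m) y = if i = m then 1 else 0) → Sm u →
  (∀ s : ℝ, 0 < s → one (fun y => mor s (y - a)) u ≤ B) →
  -(∑ m, (one (fun y => 1 / nr (y - a)) (fun s => Pg (g m) (u s)) +
      (∑ s, ∫ x, (∑ k, 1 / nr (x k - a)) * (Pg (g m) (Pg (g m) (u s)) x * u s x)))) ≤
    C * K ^ 2 / R ^ 2 * one (fun y => 1 / nr (y - a)) u + B / 2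

def ST_BIDM : Prop := ∃ C : ℝ, 0 < C ∧ ∀ (n M : ℕ) (X : Fin M → R3) (Z : Fin M → ℝ) (E : ℝ)
  (g : R3 → ℝ) (K r : ℝ) (S : Set R3) (u : Wf n),
  (∀ j, 0 ≤ Z j) → Scale g K r → 0 < r → IsClosed S → (∀ y, y ∉ S → ∀ i, pd i g y = 0) →
  (∀ j y, nr (y - X j) < r → ∀ i, pd i g y = 0) → Sm u →
  QM X Z (fun s => Pg g (u s)) - E * sq (fun s => Pg g (u s)) ≤
    -(∑ s, ∫ x, Pg g (Pg g (u s)) x * (hmM X Z (u s) x - E * u s x)) +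
    C * K ^ 2 * ((kin u + pair u + one (pot X Z) u) / r ^ 2 + one (ind S) u / r ^ 4)

def ST_BINM : Prop := ∃ C : ℝ, 0 < C ∧ ∀ (n M : ℕ) (X : Fin M → R3) (Z : Fin M → ℝ) (E : ℝ)
  (g : Fin 3 → R3 → ℝ) (K R B : ℝ) (S : Set R3) (u : Wf n),
  (∀ j, 0 ≤ Z j) → (∀ m, Scale (g m) K R) → 0 < R → IsClosed S →
  (∀ m y, y ∉ S → ∀ i, pd i (g m) y = 0) →
  (∀ m j y, nr (y - X j) < R → ∀ i, pd i (g m) y = if i = m then 1 else 0) → Sm u →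
  (∀ (j : Fin M) (s : ℝ), 0 < s → one (fun y => mor s (y - X j)) u ≤ B) →
  ∑ m, (QM X Z (fun s => Pg (g m) (u s)) - E * sq (fun s => Pg (g m) (u s))) ≤
    -(∑ m, ∑ s, ∫ x, Pg (g m) (Pg (g m) (u s)) x * (hmM X Z (u s) x - E * u s x)) +
    C * K ^ 2 * ((kin u + pair u + one (pot X Z) u) / R ^ 2 + one (ind S) u / R ^ 4) +
    (∑ j, Z j) * B / 2

def ST_MORM : Prop := ∀ (n M : ℕ) (X : Fin M → R3) (Z : Fin M → ℝ) (E s : ℝ) (a : R3) (u : Wf n),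
  (∀ j, 0 ≤ Z j) → 0 < s → Sm u →
  one (fun y => mor s (y - a)) u ≤
    4 * (∑ j, Z j) * kin u + 8 * Real.sqrt (n * kin u * resM X Z E u)

def ST_SHLM : Prop := ∃ C : ℝ, 0 < C ∧ ∀ (n M : ℕ) (X : Fin M → R3) (Z : Fin M → ℝ) (E : ℝ)
  (g : R3 → ℝ) (K r B : ℝ) (S : Set R3), LowM n X Z E → (∀ j, 0 ≤ Z j) → Scale g K r → 0 < r →
  IsClosed S → (∀ y, y ∉ S → ∀ i, pd i g y = 0) →
  (∀ j y, nr (y - X j) < r → ∀ i, pd i g y = 0) →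
  ∃ C' : ℝ, 0 < C' ∧ ∀ u : Wf n, Sm u → Anti u → sq u ≤ 2 →
  kin u ≤ B → pair u ≤ B → one (pot X Z) u ≤ B → dd u ≤ B → resM X Z E u ≤ 1 →
  sq (fun s => Pg g (u s)) ^ 2 ≤
    C * K ^ 4 * (one (ind S) u * ((kin u + pair u + one (pot X Z) u) / r ^ 2 +
      one (ind S) u / r ^ 4)) + C' * Real.sqrt (resM X Z E u)

def ST_INLM : Prop := ∃ C : ℝ, 0 < C ∧ ∀ (n M : ℕ) (X : Fin M → R3) (Z : Fin M → ℝ) (E : ℝ)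
  (g : Fin 3 → R3 → ℝ) (K R B : ℝ) (S : Set R3), LowM n X Z E → (∀ j, 0 ≤ Z j) → 1 ≤ K →
  (∀ m, Scale (g m) K R) → 0 < R → IsClosed S → (∀ m y, y ∉ S → ∀ i, pd i (g m) y = 0) →
  (∀ m j y, nr (y - X j) < R → ∀ i, pd i (g m) y = if i = m then 1 else 0) →
  ∃ C' : ℝ, 0 < C' ∧ ∀ u : Wf n, Sm u → Anti u → sq u ≤ 2 →
  kin u ≤ B → pair u ≤ B → one (pot X Z) u ≤ B → dd u ≤ B → resM X Z E u ≤ 1 →
  ∀ m, sq (fun s => Pg (g m) (u s)) ^ 2 ≤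
    C * K ^ 4 * (one (ind S) u *
      ((kin u + pair u + one (pot X Z) u) / R ^ 2 + one (ind S) u / R ^ 4 +
        (∑ j, Z j) ^ 2 * kin u)) + C' * Real.sqrt (resM X Z E u)

def ST_CUTM : Prop := ∃ K0 : ℝ, 1 ≤ K0 ∧ ∀ (M : ℕ) (X : Fin M → R3) (m : Fin 3) (R : ℝ), 0 < R →
  ∃ G : R3 → ℝ, IsCut X m (K0 * ((M : ℝ) + 1) ^ 6) R G

def ApprM {n M : ℕ} (X : Fin M → R3) (Z : Fin M → ℝ) (E : ℝ) (φ : Wf n)
    (G : Fin n → Fin 3 → Wf n) (u : ℕ → Wf n) : Prop :=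
  (∀ j, Sm (u j) ∧ Anti (u j)) ∧
  Tendsto (fun j => sq (fun s x => u j s x - φ s x)) atTop (nhds 0) ∧
  (∀ k i, Tendsto (fun j => sq (fun s x => dv k i (u j s) x - G k i s x)) atTop (nhds 0)) ∧
  (∃ B : ℝ, ∀ j, dd (u j) ≤ B) ∧ Tendsto (fun j => resM X Z E (u j)) atTop (nhds 0)

def ST_APXM : Prop := ∀ (n M : ℕ) (X : Fin M → R3) (Z : Fin M → ℝ) (E : ℝ) (φ : Wf n)
  (G : Fin n → Fin 3 → Wf n), GroundM n X Z E φ G → ∃ u : ℕ → Wf n, ApprM X Z E φ G u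

def ST_LMTM : Prop := ∀ (n M : ℕ) (X : Fin M → R3) (Z : Fin M → ℝ) (E : ℝ) (φ : Wf n)
  (G : Fin n → Fin 3 → Wf n) (u : ℕ → Wf n), GroundM n X Z E φ G → ApprM X Z E φ G u →
  Tendsto (fun j => sq (u j)) atTop (nhds 1) ∧
  Tendsto (fun j => kin (u j)) atTop (nhds (kinG G)) ∧
  ∀ g : R3 → ℝ, ContDiff ℝ (⊤ : ℕ∞) g → HasCompactSupport g →
    Tendsto (fun j => sq (fun s => Pg g (u j s))) atTop (nhds (sq (PG g φ G)))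

def ST_LIMM : Prop := ∀ (n M : ℕ) (X : Fin M → R3) (Z : Fin M → ℝ) (E : ℝ) (φ : Wf n)
  (G : Fin n → Fin 3 → Wf n) (m : Fin 3) (K : ℝ) (g : ℕ → R3 → ℝ), 1 ≤ M →
  GroundM n X Z E φ G → (∀ L : ℕ, IsCut X m K ((L : ℝ) + 1) (g L)) →
  Tendsto (fun L : ℕ => sq (PG (g L) φ G)) atTop (nhds (sq (fun s x => ∑ k, G k m s x)))

def ST_PIEM : Prop := ∃ C : ℝ, 0 < C ∧ ∀ (n M : ℕ) (X : Fin M → R3) (Z : Fin M → ℝ) (E : ℝ)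
  (φ : Wf n) (G : Fin n → Fin 3 → Wf n) (m : Fin 3) (K r R ν : ℝ) (g1 g2 : R3 → ℝ), 1 ≤ n →
  Nuc n Z → 1 ≤ K → GroundM n X Z E φ G → E ≤ 0 → 0 < r → r ≤ R →
  IsCut X m K R g1 → IsCut X m K r g2 →
  ν = 1 + ((n : ℝ) ^ (7 / 3 : ℝ) * R ^ 2) ^ (3 / 5 : ℝ) →
  sq (PG (fun y => g1 y - g2 y) φ G) ^ 2 ≤
    C * K ^ 4 * (M : ℝ) ^ 2 * (ν * ((n : ℝ) ^ (7 / 3 : ℝ) / r ^ 2 + ν / r ^ 4))

def ST_INNM : Prop := ∃ C : ℝ, 0 < C ∧ ∀ (n M : ℕ) (X : Fin M → R3) (Z : Fin M → ℝ) (E : ℝ)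
  (φ : Wf n) (G : Fin n → Fin 3 → Wf n) (K R ν : ℝ) (g : Fin 3 → R3 → ℝ), 1 ≤ n →
  Nuc n Z → 1 ≤ K → GroundM n X Z E φ G → E ≤ 0 → 0 < R → (∀ m, IsCut X m K R (g m)) →
  ν = 1 + ((n : ℝ) ^ (7 / 3 : ℝ) * R ^ 2) ^ (3 / 5 : ℝ) →
  ∀ m, sq (PG (g m) φ G) ^ 2 ≤
    C * K ^ 4 * (M : ℝ) ^ 2 *
      (ν * ((n : ℝ) ^ (7 / 3 : ℝ) / R ^ 2 + ν / R ^ 4 + (n : ℝ) ^ (13 / 3 : ℝ)))

def ST_MOMM : Prop := ∃ (C : ℝ) (p : ℕ), 0 < C ∧ ∀ (n M : ℕ) (X : Fin M → R3) (Z : Fin M → ℝ)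
  (E : ℝ) (φ : Wf n) (G : Fin n → Fin 3 → Wf n), 1 ≤ n → 1 ≤ M → Nuc n Z →
  GroundM n X Z E φ G → E ≤ 0 → mom G ≤ C * (M : ℝ) ^ p * (n : ℝ) ^ (34 / 15 : ℝ)

/-- trial functions for an atom with any number of electrons -/
def ST_TRI1 : Prop := ∃ (c Z0 : ℝ), 0 < c ∧ 0 < Z0 ∧ ∀ (n : ℕ) (Z : ℝ), Z0 ≤ Z → Z ≤ n →
  ∃ ψ : Wf n, Sm ψ ∧ Anti ψ ∧ 0 < sq ψ ∧ Q Z ψ ≤ -(c * Z ^ (7 / 3 : ℝ)) * sq ψ

def ST_TRIM : Prop := ∃ (c : ℝ) (n0 : ℕ), 0 < c ∧ ∀ (n M : ℕ) (X : Fin M → R3) (Z : Fin M → ℝ),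
  1 ≤ M → Nuc n Z → n0 * M ≤ n → ∃ ψ : Wf n, Sm ψ ∧ Anti ψ ∧
  0 < sq ψ ∧ QM X Z ψ ≤ -(c * ((n : ℝ) / M) ^ (7 / 3 : ℝ)) * sq ψ

def ST_TLOM : Prop := ∃ (c : ℝ) (n0 : ℕ), 0 < c ∧ 1 ≤ n0 ∧ ∀ (n M : ℕ) (X : Fin M → R3)
  (Z : Fin M → ℝ) (E : ℝ) (φ : Wf n) (G : Fin n → Fin 3 → Wf n), 1 ≤ n → 1 ≤ M → Nuc n Z →
  n0 * M ≤ n → GroundM n X Z E φ G →
  E ≤ 0 ∧ c * ((n : ℝ) / M) ^ (14 / 3 : ℝ) ≤ (n : ℝ) ^ (7 / 3 : ℝ) * kinG G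

def ST_MAINM : Prop := ∃ (C : ℝ) (p : ℕ), 0 < C ∧ ∀ (n M : ℕ) (X : Fin M → R3) (Z : Fin M → ℝ)
  (E : ℝ) (φ : Wf n) (G : Fin n → Fin 3 → Wf n), 1 ≤ n → 1 ≤ M → Nuc n Z →
  GroundM n X Z E φ G → mom G ≤ C * (M : ℝ) ^ p * (n : ℝ) ^ (-(1 / 15) : ℝ) * kinG G

end Pool.Agent.Helper95.PW
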