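import Pool.Agent.Helper95.PM.Stmts
import Pool.Agent.Helper95.PW.MOM2

set_option autoImplicit false

namespace Pool.Agent.Helper95.PW

open MeasureTheory Filter

theorem MOMM_memLp {n : ℕ} {g : R3 → ℝ} {K r : ℝ} (hg : Scale g K r) {φ : Wf n}
    {G : Fin n → Fin 3 → Wf n} (hlp : ∀ s, MemLp (φ s) 2) (hlpG : ∀ k i s, MemLp (G k i s) 2)
    (s : Fin n → Fin 2) : MemLp (PG g φ G s) 2 := by
  have key : ∀ (c : R3 → ℝ) (f : Cf n → ℝ) (k : Fin n) (B : ℝ), Continuous c → (∀ y, |c y| ≤ B) →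
      MemLp f 2 → MemLp (fun x : Cf n => c (x k) * f x) 2 := by
    intro c f k B hc hB hf
    refine MemLp.of_le_mul (c := B) hf ?_ ?_
    · exact ((hc.comp (continuous_apply k)).aestronglyMeasurable).mul hf.aestronglyMeasurable
    · refine Eventually.of_forall fun x => ?_
      rw [norm_mul]
      exact mul_le_mul_of_nonneg_right (by simpa [Real.norm_eq_abs] using hB (x k)) (norm_nonneg _)
  have e : PG g φ G s = fun x => ∑ k, ((∑ i, pd i g (x k) * G k i s x) +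
      lap g (x k) / 2 * φ s x) := rfl
  rw [e]
  refine memLp_finsetSum _ fun k _ => ?_
  refine MemLp.add (f := fun x => ∑ i, pd i g (x k) * G k i s x)
    (g := fun x => lap g (x k) / 2 * φ s x) ?_ ?_
  · refine memLp_finsetSum _ fun i _ => ?_
    exact key (pd i g) (G k i s) k K ((MOM2_pd_smooth hg.sm i).continuous) (hg.d1 i) (hlpG k i s)
  · have hlc : Continuous (fun y => lap g y / 2) := by
      unfold lap
      refine Continuous.div_const ?_ _
      refine continuous_finsetSum _ fun i _ => ?_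
      exact (MOM2_pd_smooth (MOM2_pd_smooth hg.sm i) i).continuous
    refine key (fun y => lap g y / 2) (φ s) k (3 * |K / r| / 2) hlc ?_ (hlp s)
    intro y
    rw [abs_div, abs_of_pos (by norm_num : (0:ℝ) < 2)]
    refine div_le_div_of_nonneg_right ?_ (by norm_num)
    unfold lap
    refine (Finset.abs_sum_le_sum_abs _ _).trans ?_
    refine (Finset.sum_le_sum fun i _ => (hg.d2 i i y).trans (le_abs_self _)).trans ?_
    simp

/-- difference of two cut off functions -/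
theorem MOMM_diff {M : ℕ} {X : Fin M → R3} {m : Fin 3} {K R r : ℝ} {g1 g2 : R3 → ℝ}
    (hr : 0 < r) (hrR : r ≤ R) (h1 : IsCut X m K R g1) (h2 : IsCut X m K r g2) :
    ∃ K', Scale (fun y => g1 y - g2 y) K' r := by
  have e1 : ∀ {g h : R3 → ℝ}, ContDiff ℝ (⊤ : ℕ∞) g → ContDiff ℝ (⊤ : ℕ∞) h → ∀ i,
      pd i (fun y => g y - h y) = fun y => pd i g y - pd i h y := by
    intro g h hg hh i
    funext y
    exact MOM2_pd_sub (hg.differentiable (by simp)) (hh.differentiable (by simp)) i y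
  have s1 := h1.sc.sm
  have s2 := h2.sc.sm
  have hR : 0 < R := hr.trans_le hrR
  have hK : 0 ≤ K := le_trans (abs_nonneg _) (h1.sc.d1 0 0)
  have i1 : ∀ i, pd i (fun y => g1 y - g2 y) = fun y => pd i g1 y - pd i g2 y := fun i => e1 s1 s2 i
  have i2 : ∀ i j, pd i (pd j (fun y => g1 y - g2 y)) = fun y => pd i (pd j g1) y -
      pd i (pd j g2) y := by
    intro i j
    rw [i1 j]
    exact e1 (MOM2_pd_smooth s1 j) (MOM2_pd_smooth s2 j) i
  have i3 : ∀ i j l, pd i (pd j (pd l (fun y => g1 y - g2 y))) = fun y =>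
      pd i (pd j (pd l g1)) y - pd i (pd j (pd l g2)) y := by
    intro i j l
    rw [i2 j l]
    exact e1 (MOM2_pd_smooth (MOM2_pd_smooth s1 l) j) (MOM2_pd_smooth (MOM2_pd_smooth s2 l) j) i
  have i4 : ∀ i j l m, pd i (pd j (pd l (pd m (fun y => g1 y - g2 y)))) = fun y =>
      pd i (pd j (pd l (pd m g1))) y - pd i (pd j (pd l (pd m g2))) y := by
    intro i j l m
    rw [i3 j l m]
    exact e1 (MOM2_pd_smooth (MOM2_pd_smooth (MOM2_pd_smooth s1 m) l) j)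
      (MOM2_pd_smooth (MOM2_pd_smooth (MOM2_pd_smooth s2 m) l) j) i
  have q1 : K / R ≤ K / r := by gcongr
  have q2 : K / R ^ 2 ≤ K / r ^ 2 := by gcongr
  have q3 : K / R ^ 3 ≤ K / r ^ 3 := by gcongr
  refine ⟨2 * K, s1.sub s2, h1.sc.cs.sub h2.sc.cs, ?_, ?_, ?_, ?_⟩
  · intro i y
    rw [i1 i]
    have := abs_sub (pd i g1 y) (pd i g2 y)
    have a1 := h1.sc.d1 i y
    have a2 := h2.sc.d1 i y
    linarith
  · intro i j y
    rw [i2 i j]
    have := abs_sub (pd i (pd j g1) y) (pd i (pd j g2) y)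
    have a1 := h1.sc.d2 i j y
    have a2 := h2.sc.d2 i j y
    have e : 2 * K / r = K / r + K / r := by ring
    rw [e]; linarith
  · intro i j l y
    rw [i3 i j l]
    have := abs_sub (pd i (pd j (pd l g1)) y) (pd i (pd j (pd l g2)) y)
    have a1 := h1.sc.d3 i j l y
    have a2 := h2.sc.d3 i j l y
    have e : 2 * K / r ^ 2 = K / r ^ 2 + K / r ^ 2 := by ring
    rw [e]; linarith
  · intro i j l m y
    rw [i4 i j l m]
    have := abs_sub (pd i (pd j (pd l (pd m g1))) y) (pd i (pd j (pd l (pd m g2))) y)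
    have a1 := h1.sc.d4 i j l m y
    have a2 := h2.sc.d4 i j l m y
    have e : 2 * K / r ^ 3 = K / r ^ 3 + K / r ^ 3 := by ring
    rw [e]; linarith

/-- summation over the dyadic scales -/
theorem MOMM_abs {N C1 C2 q : ℝ} (hN : 1 ≤ N) (hC1 : 0 < C1) (hC2 : 0 < C2)
    (hq : q = (2:ℝ) ^ (-(1 / 5) : ℝ)) (a : ℝ → ℝ) (b : ℝ → ℝ → ℝ)
    (h1 : ∀ r R : ℝ, 0 < r → r ≤ R → b r R ^ 2 ≤
      C1 * ((1 + (N ^ (7 / 3 : ℝ) * R ^ 2) ^ (3 / 5 : ℝ)) *
      (N ^ (7 / 3 : ℝ) / r ^ 2 + (1 + (N ^ (7 / 3 : ℝ) * R ^ 2) ^ (3 / 5 : ℝ)) / r ^ 4)))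
    (h2 : a (1 / N) ^ 2 ≤ C2 * ((1 + (N ^ (7 / 3 : ℝ) * (1 / N) ^ 2) ^ (3 / 5 : ℝ)) *
      (N ^ (7 / 3 : ℝ) / (1 / N) ^ 2 + (1 + (N ^ (7 / 3 : ℝ) * (1 / N) ^ 2) ^ (3 / 5 : ℝ)) /
        (1 / N) ^ 4 + N ^ (13 / 3 : ℝ))))
    (h3 : ∀ r R : ℝ, 0 < r → r ≤ R → Real.sqrt (a R) ≤ Real.sqrt (b r R) + Real.sqrt (a r)) :
    ∀ R : ℝ, 1 / N ≤ R → Real.sqrt (a R) ≤
      (Real.sqrt (Real.sqrt (80 * C2)) + Real.sqrt (Real.sqrt (80 * C1)) / (1 - q)) *
        N ^ (17 / 15 : ℝ) := by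
  have hN0 : 0 < N := by linarith
  have hq0 : 0 < q := by rw [hq]; positivity
  have hq1 : q < 1 := by
    rw [hq]
    exact Real.rpow_lt_one_of_one_lt_of_neg (by norm_num) (by norm_num)
  set c1 : ℝ := Real.sqrt (Real.sqrt (80 * C2)) with hc1
  set c2 : ℝ := Real.sqrt (Real.sqrt (80 * C1)) with hc2
  have hc1p : 0 < c1 := by positivity
  have hc2p : 0 < c2 := by positivity
  -- the inner ball
  have hin : Real.sqrt (a (1 / N)) ≤ c1 * N ^ (17 / 15 : ℝ) := by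
    have h2 := MOM2_num0 hN hC2 h2
    refine (Real.sqrt_le_sqrt h2).trans (le_of_eq ?_)
    rw [Real.sqrt_mul (Real.sqrt_nonneg _), hc1]
    congr 1
    rw [Real.sqrt_eq_rpow, ← Real.rpow_mul hN0.le]
    norm_num
  -- one shell
  have hsh : ∀ r R : ℝ, 1 / N ≤ R → 0 < r → R / 2 ≤ r → r ≤ R →
      Real.sqrt (a R) ≤ c2 * (N ^ (14 / 15 : ℝ) * R ^ (-(1 / 5) : ℝ)) + Real.sqrt (a r) := by
    intro r R hR1 hr0 hr hrR
    have hR0 : 0 < R := hr0.trans_le hrR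
    have h1 := h1 r R hr0 hrR
    have h2 := MOM2_num hN hC1 hR1 hr h1
    refine (h3 r R hr0 hrR).trans (add_le_add_left ?_ _)
    refine (Real.sqrt_le_sqrt h2).trans (le_of_eq ?_)
    have hs : Real.sqrt (N ^ (28 / 15 : ℝ) * R ^ (-(2 / 5) : ℝ)) =
        N ^ (14 / 15 : ℝ) * R ^ (-(1 / 5) : ℝ) := by
      rw [Real.sqrt_mul (Real.rpow_nonneg hN0.le _), Real.sqrt_eq_rpow, Real.sqrt_eq_rpow,
        ← Real.rpow_mul hN0.le, ← Real.rpow_mul hR0.le]
      norm_num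
    rw [Real.sqrt_mul (Real.sqrt_nonneg _), hc2, hs]
  -- induction
  have hind : ∀ j : ℕ, ∀ R : ℝ, 2 ^ j / N ≤ R → R ≤ 2 ^ (j + 1) / N →
      Real.sqrt (a R) ≤ c1 * N ^ (17 / 15 : ℝ) +
        c2 * N ^ (17 / 15 : ℝ) * ∑ i ∈ Finset.range (j + 1), q ^ i := by
    have hpw : ∀ (j : ℕ) (R : ℝ), 2 ^ j / N ≤ R →
        N ^ (14 / 15 : ℝ) * R ^ (-(1 / 5) : ℝ) ≤ N ^ (17 / 15 : ℝ) * q ^ j := by
      intro j R hR
      have h0 : (0:ℝ) < 2 ^ j / N := by positivity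
      have h1 : R ^ (-(1 / 5) : ℝ) ≤ (2 ^ j / N) ^ (-(1 / 5) : ℝ) :=
        Real.rpow_le_rpow_of_nonpos h0 hR (by norm_num)
      have h2 : (2 ^ j / N : ℝ) ^ (-(1 / 5) : ℝ) = q ^ j * N ^ (1 / 5 : ℝ) := by
        rw [Real.div_rpow (by positivity) hN0.le, hq, ← Real.rpow_natCast, ← Real.rpow_natCast,
          ← Real.rpow_mul (by norm_num), ← Real.rpow_mul (by norm_num), div_eq_mul_inv,
          ← Real.rpow_neg hN0.le]
        congr 2
        · ring
        · ring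
      rw [h2] at h1
      calc N ^ (14 / 15 : ℝ) * R ^ (-(1 / 5) : ℝ) ≤ N ^ (14 / 15 : ℝ) * (q ^ j * N ^ (1 / 5 : ℝ)) := by
            gcongr
        _ = (N ^ (14 / 15 : ℝ) * N ^ (1 / 5 : ℝ)) * q ^ j := by ring
        _ = N ^ (17 / 15 : ℝ) * q ^ j := by
            rw [← Real.rpow_add hN0]; norm_num
    intro j
    induction j with
    | zero =>
      intro R h1 h2
      have h1' : 1 / N ≤ R := by simpa using h1
      have h2' : R / 2 ≤ 1 / N := by
        have : R ≤ 2 / N := by simpa using h2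
        have h3 : R / 2 ≤ (2 / N) / 2 := by linarith
        refine h3.trans (le_of_eq (by ring))
      have h3 := hsh (1 / N) R h1' (by positivity) h2' h1'
      have h4 := hpw 0 R h1
      rw [pow_zero, mul_one] at h4
      simp only [zero_add, Finset.range_one, Finset.sum_singleton, pow_zero, mul_one]
      have h5 := mul_le_mul_of_nonneg_left h4 hc2p.le
      linarith
    | succ j ih =>
      intro R h1 h2
      have hR0 : 0 < R := lt_of_lt_of_le (by positivity) h1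
      have hR1 : 1 / N ≤ R := by
        refine le_trans ?_ h1
        gcongr
        exact one_le_pow₀ (by norm_num)
      have h3 := hsh (R / 2) R hR1 (by positivity) le_rfl (by linarith)
      have h4 := ih (R / 2) (by
        have : (2:ℝ) ^ (j + 1) / N = 2 * (2 ^ j / N) := by ring
        linarith) (by
        have : (2:ℝ) ^ (j + 1 + 1) / N = 2 * (2 ^ (j + 1) / N) := by ring
        linarith)
      have h5 := hpw (j + 1) R h1
      have h6 := mul_le_mul_of_nonneg_left h5 hc2p.le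
      rw [Finset.sum_range_succ]
      nlinarith
  intro R hR
  have hRN : 1 ≤ R * N := by
    rw [div_le_iff₀ hN0] at hR
    exact hR
  obtain ⟨j, hj1, hj2⟩ := exists_nat_pow_near hRN (by norm_num : (1:ℝ) < 2)
  have h1 := hind j R (by rw [div_le_iff₀ hN0]; exact hj1) (by
    rw [le_div_iff₀ hN0]; exact hj2.le)
  have h2 : ∑ i ∈ Finset.range (j + 1), q ^ i ≤ 1 / (1 - q) := by
    rw [geom_sum_eq hq1.ne]
    rw [← neg_div_neg_eq, neg_sub, neg_sub]
    have : 0 < 1 - q := by linarith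
    gcongr
    have := pow_pos hq0 (j + 1)
    linarith
  have h3 : c2 * N ^ (17 / 15 : ℝ) * ∑ i ∈ Finset.range (j + 1), q ^ i ≤
      c2 * N ^ (17 / 15 : ℝ) * (1 / (1 - q)) := by gcongr
  refine h1.trans ?_
  have e : (c1 + c2 / (1 - q)) * N ^ (17 / 15 : ℝ) = c1 * N ^ (17 / 15 : ℝ) +
      c2 * N ^ (17 / 15 : ℝ) * (1 / (1 - q)) := by ring
  rw [e]
  linarith


theorem st_MOMM (hP : ST_PIEM) (hI : ST_INNM) (hL : ST_LIMM) (hC : ST_CUTM) : ST_MOMM := by
  obtain ⟨C1, hC1, hP⟩ := hP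
  obtain ⟨C2, hC2, hI⟩ := hI
  obtain ⟨K0, hK0, hC⟩ := hC
  set q : ℝ := (2:ℝ) ^ (-(1 / 5) : ℝ) with hq
  have hq1 : q < 1 := by
    rw [hq]
    exact Real.rpow_lt_one_of_one_lt_of_neg (by norm_num) (by norm_num)
  have hq2 : 0 < 1 - q := by linarith
  set D : ℝ := Real.sqrt (Real.sqrt (80 * C2)) + Real.sqrt (Real.sqrt (80 * C1)) / (1 - q) with hD
  have hDp : 0 < D := by positivity
  refine ⟨3 * (D ^ 2 * (K0 ^ 2 * 4096)), 13, by positivity, ?_⟩
  intro n M X Z E φ G hn hM hZ hG hE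
  have hN : (1:ℝ) ≤ n := by exact_mod_cast hn
  have hN0 : (0:ℝ) < n := by linarith
  have hM1 : (1:ℝ) ≤ M := by exact_mod_cast hM
  have hM0 : (0:ℝ) < M := by linarith
  set K : ℝ := K0 * ((M : ℝ) + 1) ^ 6 with hKdef
  have hK : 1 ≤ K := by
    rw [hKdef]
    have : (1:ℝ) ≤ ((M : ℝ) + 1) ^ 6 := one_le_pow₀ (by linarith)
    nlinarith
  have hKp : 0 < K := by linarith
  -- the family of cut off functions
  have hex : ∀ (m : Fin 3) (R : ℝ), ∃ g : R3 → ℝ, 0 < R → IsCut X m K R g := by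
    intro m R
    by_cases hR : 0 < R
    · obtain ⟨g, hg⟩ := hC M X m R hR
      exact ⟨g, fun _ => hg⟩
    · exact ⟨fun _ => 0, fun h => absurd h hR⟩
  choose g hg using hex
  have key : ∀ (m : Fin 3) (R : ℝ), 1 / (n : ℝ) ≤ R →
      Real.sqrt (sq (PG (g m R) φ G)) ≤ (D * Real.sqrt (K ^ 2 * M)) * (n : ℝ) ^ (17 / 15 : ℝ) := by
    intro m R hR
    have h := MOMM_abs (N := n) (C1 := C1 * K ^ 4 * (M : ℝ) ^ 2) (C2 := C2 * K ^ 4 * (M : ℝ) ^ 2)
      (q := q) hN (by positivity) (by positivity) hq (fun R => sq (PG (g m R) φ G))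
      (fun r R => sq (PG (fun y => g m R y - g m r y) φ G)) ?_ ?_ ?_ R hR
    · refine h.trans (le_of_eq ?_)
      have hs : ∀ C : ℝ, 0 < C → Real.sqrt (Real.sqrt (80 * (C * K ^ 4 * (M : ℝ) ^ 2))) =
          Real.sqrt (Real.sqrt (80 * C)) * Real.sqrt (K ^ 2 * M) := by
        intro C hC
        have e : 80 * (C * K ^ 4 * (M : ℝ) ^ 2) = (80 * C) * (K ^ 2 * M) ^ 2 := by ring
        rw [e, Real.sqrt_mul (by positivity), Real.sqrt_sq (by positivity),
          Real.sqrt_mul (by positivity)]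
      rw [hs C1 hC1, hs C2 hC2, hD]
      ring
    · intro r R hr hrR
      exact hP n M X Z E φ G m K r R _ (g m R) (g m r) hn hZ hK hG hE hr hrR
        (hg m R (hr.trans_le hrR)) (hg m r hr) rfl
    · exact hI n M X Z E φ G K (1 / (n:ℝ)) _ (fun m => g m (1 / (n:ℝ))) hn hZ hK hG hE
        (by positivity) (fun m => hg m _ (by positivity)) rfl m
    · intro r R hr hrR
      have c1 := hg m R (hr.trans_le hrR)
      have c2 := hg m r hr
      obtain ⟨K', hd⟩ := MOMM_diff hr hrR c1 c2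
      rw [MOM2_PG_split c1.sc.sm c2.sc.sm φ G]
      exact MOM2_tri _ _ (MOMM_memLp hd hG.lp hG.lpG) (MOMM_memLp c2.sc hG.lp hG.lpG)
  have hm : ∀ m : Fin 3, sq (fun s x => ∑ k, G k m s x) ≤
      D ^ 2 * (K ^ 2 * M) * (n : ℝ) ^ (34 / 15 : ℝ) := by
    intro m
    have hlim := hL n M X Z E φ G m K (fun L : ℕ => g m ((L : ℝ) + 1)) hM hG
      (fun L => hg m _ (by positivity))
    refine le_of_tendsto' hlim fun L => ?_
    have hL' : 1 / (n : ℝ) ≤ (L : ℝ) + 1 := by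
      have : 1 / (n : ℝ) ≤ 1 := by
        rw [div_le_one hN0]; exact hN
      have : (0:ℝ) ≤ L := Nat.cast_nonneg L
      linarith
    have h5 := key m ((L : ℝ) + 1) hL'
    have h7 := (Real.sqrt_le_iff.mp h5).2
    refine h7.trans (le_of_eq ?_)
    rw [mul_pow, mul_pow, Real.sq_sqrt (by positivity), ← Real.rpow_natCast ((n:ℝ) ^ (17 / 15 : ℝ)),
      ← Real.rpow_mul hN0.le]
    norm_num
  have hfin : mom G ≤ 3 * (D ^ 2 * (K ^ 2 * M) * (n : ℝ) ^ (34 / 15 : ℝ)) := by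
    unfold mom
    refine (Finset.sum_le_sum fun i _ => hm i).trans (le_of_eq ?_)
    simp
  refine hfin.trans ?_
  have hKM : K ^ 2 * M ≤ (K0 ^ 2 * 4096) * (M : ℝ) ^ 13 := by
    have h1 : ((M : ℝ) + 1) ^ 6 ≤ (2 * M) ^ 6 := by gcongr; linarith
    have h2 : K ≤ K0 * (2 * M) ^ 6 := by
      rw [hKdef]; gcongr
    calc K ^ 2 * M ≤ (K0 * (2 * M) ^ 6) ^ 2 * M := by gcongr
      _ = (K0 ^ 2 * 4096) * (M : ℝ) ^ 13 := by ring
  have h3 : 0 ≤ (n : ℝ) ^ (34 / 15 : ℝ) := by positivity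
  calc 3 * (D ^ 2 * (K ^ 2 * M) * (n : ℝ) ^ (34 / 15 : ℝ))
      ≤ 3 * (D ^ 2 * ((K0 ^ 2 * 4096) * (M : ℝ) ^ 13) * (n : ℝ) ^ (34 / 15 : ℝ)) := by gcongr
    _ = 3 * (D ^ 2 * (K0 ^ 2 * 4096)) * (M : ℝ) ^ 13 * (n : ℝ) ^ (34 / 15 : ℝ) := by ring

end Pool.Agent.Helper95.PW
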