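import Pool.Agent.Helper95.PM.MOMM
import Pool.Agent.Helper17.PW.MAIN

/-!
# Explicit exponents (proofs after MOMM and Helper77/PM/MAINM)
-/

set_option autoImplicit false

namespace Pool.Agent.Helper95.PW

open MeasureTheory Filter

/-- the momentum bound with the power 13 of the number of nuclei -/
def ST_MOMM13 : Prop := ∃ C : ℝ, 0 < C ∧ ∀ (n M : ℕ) (X : Fin M → R3) (Z : Fin M → ℝ)
  (E : ℝ) (φ : Wf n) (G : Fin n → Fin 3 → Wf n), 1 ≤ n → 1 ≤ M → Nuc n Z →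
  GroundM n X Z E φ G → E ≤ 0 → mom G ≤ C * (M : ℝ) ^ 13 * (n : ℝ) ^ (34 / 15 : ℝ)

theorem st_MOMM13 (hP : ST_PIEM) (hI : ST_INNM) (hL : ST_LIMM) (hC : ST_CUTM) : ST_MOMM13 := by
  obtain ⟨C1, hC1, hP⟩ := hP
  obtain ⟨C2, hC2, hI⟩ := hI
  obtain ⟨K0, hK0, hC⟩ := hC
  set q : ℝ := (2:ℝ) ^ (-(1 / 5) : ℝ) with hq
  have hq1 : q < 1 := by
    rw [hq]
    exact Real.rpow_lt_one_of_one_lt_of_neg (by norm_num) (by norm_num)
  have hq2 : 0 < 1 - q := by linarith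
  set D : ℝ := Real.sqrt (Real.sqrt (80 * C2)) + Real.sqrt (Real.sqrt (80 * C1)) / (1 - q) with hD
  have hDp : 0 < D := by positivity
  refine ⟨3 * (D ^ 2 * (K0 ^ 2 * 4096)), by positivity, ?_⟩
  intro n M X Z E φ G hn hM hZ hG hE
  have hN : (1:ℝ) ≤ n := by exact_mod_cast hn
  have hN0 : (0:ℝ) < n := by linarith
  have hM1 : (1:ℝ) ≤ M := by exact_mod_cast hM
  have hM0 : (0:ℝ) < M := by linarith
  set K : ℝ := K0 * ((M : ℝ) + 1) ^ 6 with hKdef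
  have hK : 1 ≤ K := by
    rw [hKdef]
    have : (1:ℝ) ≤ ((M : ℝ) + 1) ^ 6 := one_le_pow₀ (by linarith)
    nlinarith
  have hKp : 0 < K := by linarith
  -- the family of cut off functions
  have hex : ∀ (m : Fin 3) (R : ℝ), ∃ g : R3 → ℝ, 0 < R → IsCut X m K R g := by
    intro m R
    by_cases hR : 0 < R
    · obtain ⟨g, hg⟩ := hC M X m R hR
      exact ⟨g, fun _ => hg⟩
    · exact ⟨fun _ => 0, fun h => absurd h hR⟩
  choose g hg using hex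
  have key : ∀ (m : Fin 3) (R : ℝ), 1 / (n : ℝ) ≤ R →
      Real.sqrt (sq (PG (g m R) φ G)) ≤ (D * Real.sqrt (K ^ 2 * M)) * (n : ℝ) ^ (17 / 15 : ℝ) := by
    intro m R hR
    have h := MOMM_abs (N := n) (C1 := C1 * K ^ 4 * (M : ℝ) ^ 2) (C2 := C2 * K ^ 4 * (M : ℝ) ^ 2)
      (q := q) hN (by positivity) (by positivity) hq (fun R => sq (PG (g m R) φ G))
      (fun r R => sq (PG (fun y => g m R y - g m r y) φ G)) ?_ ?_ ?_ R hR
    · refine h.trans (le_of_eq ?_)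
      have hs : ∀ C : ℝ, 0 < C → Real.sqrt (Real.sqrt (80 * (C * K ^ 4 * (M : ℝ) ^ 2))) =
          Real.sqrt (Real.sqrt (80 * C)) * Real.sqrt (K ^ 2 * M) := by
        intro C hC
        have e : 80 * (C * K ^ 4 * (M : ℝ) ^ 2) = (80 * C) * (K ^ 2 * M) ^ 2 := by ring
        rw [e, Real.sqrt_mul (by positivity), Real.sqrt_sq (by positivity),
          Real.sqrt_mul (by positivity)]
      rw [hs C1 hC1, hs C2 hC2, hD]
      ring
    · intro r R hr hrR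
      exact hP n M X Z E φ G m K r R _ (g m R) (g m r) hn hZ hK hG hE hr hrR
        (hg m R (hr.trans_le hrR)) (hg m r hr) rfl
    · exact hI n M X Z E φ G K (1 / (n:ℝ)) _ (fun m => g m (1 / (n:ℝ))) hn hZ hK hG hE
        (by positivity) (fun m => hg m _ (by positivity)) rfl m
    · intro r R hr hrR
      have c1 := hg m R (hr.trans_le hrR)
      have c2 := hg m r hr
      obtain ⟨K', hd⟩ := MOMM_diff hr hrR c1 c2
      rw [MOM2_PG_split c1.sc.sm c2.sc.sm φ G]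
      exact MOM2_tri _ _ (MOMM_memLp hd hG.lp hG.lpG) (MOMM_memLp c2.sc hG.lp hG.lpG)
  have hm : ∀ m : Fin 3, sq (fun s x => ∑ k, G k m s x) ≤
      D ^ 2 * (K ^ 2 * M) * (n : ℝ) ^ (34 / 15 : ℝ) := by
    intro m
    have hlim := hL n M X Z E φ G m K (fun L : ℕ => g m ((L : ℝ) + 1)) hM hG
      (fun L => hg m _ (by positivity))
    refine le_of_tendsto' hlim fun L => ?_
    have hL' : 1 / (n : ℝ) ≤ (L : ℝ) + 1 := by
      have : 1 / (n : ℝ) ≤ 1 := by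
        rw [div_le_one hN0]; exact hN
      have : (0:ℝ) ≤ L := Nat.cast_nonneg L
      linarith
    have h5 := key m ((L : ℝ) + 1) hL'
    have h7 := (Real.sqrt_le_iff.mp h5).2
    refine h7.trans (le_of_eq ?_)
    rw [mul_pow, mul_pow, Real.sq_sqrt (by positivity), ← Real.rpow_natCast ((n:ℝ) ^ (17 / 15 : ℝ)),
      ← Real.rpow_mul hN0.le]
    norm_num
  have hfin : mom G ≤ 3 * (D ^ 2 * (K ^ 2 * M) * (n : ℝ) ^ (34 / 15 : ℝ)) := by
    unfold mom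
    refine (Finset.sum_le_sum fun i _ => hm i).trans (le_of_eq ?_)
    simp
  refine hfin.trans ?_
  have hKM : K ^ 2 * M ≤ (K0 ^ 2 * 4096) * (M : ℝ) ^ 13 := by
    have h1 : ((M : ℝ) + 1) ^ 6 ≤ (2 * M) ^ 6 := by gcongr; linarith
    have h2 : K ≤ K0 * (2 * M) ^ 6 := by
      rw [hKdef]; gcongr
    calc K ^ 2 * M ≤ (K0 * (2 * M) ^ 6) ^ 2 * M := by gcongr
      _ = (K0 ^ 2 * 4096) * (M : ℝ) ^ 13 := by ring
  have h3 : 0 ≤ (n : ℝ) ^ (34 / 15 : ℝ) := by positivity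
  calc 3 * (D ^ 2 * (K ^ 2 * M) * (n : ℝ) ^ (34 / 15 : ℝ))
      ≤ 3 * (D ^ 2 * ((K0 ^ 2 * 4096) * (M : ℝ) ^ 13) * (n : ℝ) ^ (34 / 15 : ℝ)) := by gcongr
    _ = 3 * (D ^ 2 * (K0 ^ 2 * 4096)) * (M : ℝ) ^ 13 * (n : ℝ) ^ (34 / 15 : ℝ) := by ring


open S17 in
theorem main_p (p : ℕ) (hMOM : ∃ C : ℝ, 0 < C ∧ ∀ (n M : ℕ) (X : Fin M → R3) (Z : Fin M → ℝ)
    (E : ℝ) (φ : Wf n) (G : Fin n → Fin 3 → Wf n), 1 ≤ n → 1 ≤ M → Nuc n Z →
    GroundM n X Z E φ G → E ≤ 0 → mom G ≤ C * (M : ℝ) ^ p * (n : ℝ) ^ (34 / 15 : ℝ))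
    (hTLO : ST_TLOM) : ∃ C : ℝ, 0 < C ∧ ∀ (n M : ℕ) (X : Fin M → R3) (Z : Fin M → ℝ)
    (E : ℝ) (φ : Wf n) (G : Fin n → Fin 3 → Wf n), 1 ≤ n → 1 ≤ M → Nuc n Z →
    GroundM n X Z E φ G → mom G ≤ C * (M : ℝ) ^ (p + 5) * (n : ℝ) ^ (-(1 / 15) : ℝ) * kinG G := by
  obtain ⟨C, hC, hM⟩ := hMOM
  obtain ⟨c, n0, hc, hn01, hT⟩ := hTLO
  refine ⟨C / c + (n0 : ℝ) ^ 2, by positivity, ?_⟩
  intro n M X Z E φ G hn hM1 hN hG
  have hk := kinG_nonneg G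
  have hn1 : (1 : ℝ) ≤ n := by exact_mod_cast hn
  have hn' : (0 : ℝ) < n := by linarith
  have hM' : (1 : ℝ) ≤ M := by exact_mod_cast hM1
  have hMp : (0 : ℝ) < M := by linarith
  obtain ⟨e, he⟩ : ∃ e : ℝ, e = (n : ℝ) ^ (-(1 / 15) : ℝ) := ⟨_, rfl⟩
  have e0 : 0 < e := by rw [he]; positivity
  obtain ⟨d, hd⟩ : ∃ d : ℝ, d = (n : ℝ) ^ (1 / 15 : ℝ) := ⟨_, rfl⟩
  have d0 : 0 < d := by rw [hd]; positivity
  have hed : e * d = 1 := by
    rw [he, hd, ← Real.rpow_add hn']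
    norm_num
  have hMpw : (1 : ℝ) ≤ (M : ℝ) ^ p := one_le_pow₀ hM'
  rw [← he]
  by_cases h : n0 * M ≤ n
  · obtain ⟨hE, hK⟩ := hT n M X Z E φ G hn hM1 hN h hG
    have h2 := hM n M X Z E φ G hn hM1 hN hG hE
    rw [Real.div_rpow hn'.le hMp.le] at hK
    obtain ⟨a, ha⟩ : ∃ a : ℝ, a = (n : ℝ) ^ (34 / 15 : ℝ) := ⟨_, rfl⟩
    obtain ⟨b, hb⟩ : ∃ b : ℝ, b = (n : ℝ) ^ (7 / 3 : ℝ) := ⟨_, rfl⟩
    obtain ⟨m, hm⟩ : ∃ m : ℝ, m = (M : ℝ) ^ (14 / 3 : ℝ) := ⟨_, rfl⟩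
    have b0 : 0 < b := by rw [hb]; positivity
    have a0 : 0 < a := by rw [ha]; positivity
    have m0 : 0 < m := by rw [hm]; positivity
    have d2 : (n : ℝ) ^ (14 / 3 : ℝ) = a * b * d := by
      rw [ha, hb, hd, ← Real.rpow_add hn', ← Real.rpow_add hn']
      norm_num
    have m5 : m ≤ (M : ℝ) ^ 5 := by
      rw [hm, ← Real.rpow_natCast]
      exact Real.rpow_le_rpow_of_exponent_le hM' (by norm_num)
    rw [d2, ← hb, ← hm] at hK
    rw [← ha] at h2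
    have h3 : c * (a * b * d) ≤ b * kinG G * m := by
      have h4 : c * (a * b * d / m) * m ≤ b * kinG G * m := mul_le_mul_of_nonneg_right hK m0.le
      have h5 : c * (a * b * d / m) * m = c * (a * b * d) := by
        field_simp
      rwa [h5] at h4
    have h4 : c * (a * d) ≤ kinG G * m := by
      have h5 : b * (c * (a * d)) ≤ b * (kinG G * m) := by nlinarith
      exact le_of_mul_le_mul_left h5 b0
    have h5 : c * a ≤ (M : ℝ) ^ 5 * e * kinG G := by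
      have h6 : c * a = c * (a * d) * e := by
        calc c * a = c * a * (e * d) := by rw [hed, mul_one]
          _ = c * (a * d) * e := by ring
      rw [h6]
      calc c * (a * d) * e ≤ kinG G * m * e := mul_le_mul_of_nonneg_right h4 e0.le
        _ ≤ kinG G * (M : ℝ) ^ 5 * e :=
            mul_le_mul_of_nonneg_right (mul_le_mul_of_nonneg_left m5 hk) e0.le
        _ = (M : ℝ) ^ 5 * e * kinG G := by ring
    have h6 : C * (M : ℝ) ^ p * a ≤ C / c * (M : ℝ) ^ (p + 5) * e * kinG G := by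
      have h7 : C / c * (M : ℝ) ^ p * (c * a) ≤ C / c * (M : ℝ) ^ p * ((M : ℝ) ^ 5 * e * kinG G) :=
        mul_le_mul_of_nonneg_left h5 (by positivity)
      have h8 : C / c * (M : ℝ) ^ p * (c * a) = C * (M : ℝ) ^ p * a := by
        field_simp
      rw [h8] at h7
      refine h7.trans (le_of_eq ?_)
      rw [pow_add]
      ring
    have h9 : 0 ≤ (n0 : ℝ) ^ 2 * (M : ℝ) ^ (p + 5) * e * kinG G := by positivity
    have h10 : (C / c + (n0 : ℝ) ^ 2) * (M : ℝ) ^ (p + 5) * e * kinG G =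
        C / c * (M : ℝ) ^ (p + 5) * e * kinG G + (n0 : ℝ) ^ 2 * (M : ℝ) ^ (p + 5) * e * kinG G := by
      ring
    rw [h10]
    linarith
  · have hle : (n : ℝ) ≤ n0 * M := by exact_mod_cast (not_le.1 h).le
    have h2 := mom_le G hG.lpG
    have h3 : (n : ℝ) ≤ (n0 : ℝ) ^ 2 * (M : ℝ) ^ (p + 5) * e := by
      have h4 : (n : ℝ) * d ≤ n * n := by
        refine mul_le_mul_of_nonneg_left ?_ hn'.le
        rw [hd]
        calc (n : ℝ) ^ (1 / 15 : ℝ) ≤ (n : ℝ) ^ (1 : ℝ) :=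
              Real.rpow_le_rpow_of_exponent_le hn1 (by norm_num)
          _ = n := Real.rpow_one _
      have h5 : (n : ℝ) * n ≤ (n0 * M) * (n0 * M) := mul_self_le_mul_self hn'.le hle
      have h6 : (M : ℝ) ^ 2 ≤ (M : ℝ) ^ (p + 5) := pow_le_pow_right₀ hM' (by omega)
      have h7 : (n : ℝ) * d ≤ (n0 : ℝ) ^ 2 * (M : ℝ) ^ (p + 5) := by
        have h8 : (n0 : ℝ) ^ 2 * (M : ℝ) ^ 2 ≤ (n0 : ℝ) ^ 2 * (M : ℝ) ^ (p + 5) :=
          mul_le_mul_of_nonneg_left h6 (by positivity)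
        nlinarith
      calc (n : ℝ) = n * d * e := by
            rw [mul_assoc, mul_comm d e, hed, mul_one]
        _ ≤ (n0 : ℝ) ^ 2 * (M : ℝ) ^ (p + 5) * e := mul_le_mul_of_nonneg_right h7 e0.le
    have h9 : 0 ≤ C / c * (M : ℝ) ^ (p + 5) * e * kinG G := by positivity
    have h10 : (C / c + (n0 : ℝ) ^ 2) * (M : ℝ) ^ (p + 5) * e * kinG G =
        C / c * (M : ℝ) ^ (p + 5) * e * kinG G + (n0 : ℝ) ^ 2 * (M : ℝ) ^ (p + 5) * e * kinG G := by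
      ring
    rw [h10]
    have h11 := mul_le_mul_of_nonneg_right h3 hk
    linarith


end Pool.Agent.Helper95.PW
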