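import Pool.Agent.Helper58.PM.AIDM
import Pool.Agent.Helper81.PM.APXM
import Pool.Agent.Helper46.PM.ATTM
import Pool.Agent.Helper1.PM.BIDM
import Pool.Agent.Helper62.PM.BINM
import Pool.Agent.Helper89.PM.CIDM
import Pool.Agent.Helper49.PM.CSQM
import Pool.Agent.Helper13.PM.HA3
import Pool.Agent.Helper24.PM.HFM
import Pool.Agent.Helper25.PM.INLM
import Pool.Agent.Helper33.PM.INNM
import Pool.Agent.Helper67.PM.INTM
import Pool.Agent.Helper92.PM.KINM
import Pool.Agent.Helper73.PM.LIMM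
import Pool.Agent.Helper4.PM.LMTM
import Pool.Agent.Helper77.PM.MAINM
import Pool.Agent.Helper95.PM.MOMM
import Pool.Agent.Helper80.PM.MORM
import Pool.Agent.Helper2.PM.NRM
import Pool.Agent.Helper56.PM.PIEM
import Pool.Agent.Helper72.PM.PINM
import Pool.Agent.Helper12.PM.PONM
import Pool.Agent.Helper88.PM.QHM
import Pool.Agent.Helper74.PM.TLOM
import Pool.Agent.Helper3.PW.TRI1
import Pool.Agent.Helper31.PM.TRIM
import Pool.Agent.Helper63.PM.TUPM
import Pool.Agent.Helper14.PW.POE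
import Pool.Agent.Helper84.PW.HA2
import Pool.Agent.Helper67.PW.HA1
import Pool.Agent.Helper13.PW.INT
import Pool.Agent.Helper2.PW.IBP
import Pool.Agent.Helper2.PW.STB
import Pool.Agent.Helper2.PW.PAN
import Pool.Agent.Helper59.PW.CUB
import Pool.Agent.Helper25.PW.POI
import Pool.Agent.Helper85.PW.PAU
import Pool.Agent.Helper90.PW.ERR
import Pool.Agent.Helper43.PM.SHLM
import Pool.Agent.Helper70.PM.CUTM
import Pool.Agent.Helper95.PM.Exp

set_option autoImplicit false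

namespace Pool.Agent.Helper95.PW

/-- the whole molecule project -/
theorem allM : ST_INTM ∧ ∃ C : ℝ, 0 < C ∧ ∀ (n M : ℕ) (X : Fin M → R3) (Z : Fin M → ℝ)
    (E : ℝ) (φ : Wf n) (G : Fin n → Fin 3 → Wf n), 1 ≤ n → 1 ≤ M → Nuc n Z →
    GroundM n X Z E φ G → mom G ≤ C * (M : ℝ) ^ 18 * (n : ℝ) ^ (-(1 / 15) : ℝ) * kinG G := by
  have IBP : ST_IBP := Pool.Agent.Helper2.PW.st_IBP
  have STB : ST_STB := Pool.Agent.Helper2.PW.st_STB
  have PAN : ST_PAN := Pool.Agent.Helper2.PW.st_PAN IBP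
  have HA1 : ST_HA1 := st_HA1
  have HA2 : ST_HA2 := st_HA2
  have HA3 : ST_HA3 := st_HA3
  have INT : ST_INT := st_INT HA1 HA2
  have INTM : ST_INTM := st_INTM HA3 HA2
  have CUB : ST_CUB := st_CUB Pool.Agent.Helper25.PW.st_POI st_PAU
  have NRM : ST_NRM := st_NRM CUB
  have ATTM : ST_ATTM := st_ATTM NRM HA3
  have TUPM : ST_TUPM := st_TUPM ATTM INTM
  have QHM : ST_QHM := st_QHM IBP INTM
  have CSQM : ST_CSQM := st_CSQM QHM INTM
  have HFM : ST_HFM := st_HFM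
  have AIDM : ST_AIDM := st_AIDM QHM HFM PAN STB INTM
  have CIDM : ST_CIDM := st_CIDM QHM HFM STB INTM
  have KINM : ST_KINM := st_KINM IBP PAN STB
  have PONM : ST_PONM := Pool.Agent.Helper12.PM.st_PONM PAN STB INTM HA3
  have PINM : ST_PINM := st_PINM PAN STB INTM HA3
  have POE : ST_POE := Pool.Agent.Helper14.PW.st_POE PAN STB INT HA2
  have ERR : ST_ERR := st_ERR
  have BIDM : ST_BIDM := st_BIDM QHM PAN STB KINM POE PONM INTM
  have BINM : ST_BINM := st_BINM QHM PAN STB KINM POE PINM INTM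
  have MORM : ST_MORM := st_MORM IBP HA3 INTM QHM
  have SHLM : ST_SHLM := st_SHLM CSQM STB AIDM CIDM BIDM ERR INTM
  have INLM : ST_INLM := st_INLM CSQM STB AIDM CIDM BINM MORM ERR INTM
  have APXM : ST_APXM := st_APXM HA3 HA2 INTM
  have LMTM : ST_LMTM := st_LMTM
  have LIMM : ST_LIMM := st_LIMM
  have PIEM : ST_PIEM := st_PIEM SHLM NRM TUPM APXM LMTM QHM INTM
  have INNM : ST_INNM := st_INNM INLM NRM TUPM APXM LMTM QHM INTM
  have MOMM : ST_MOMM13 := st_MOMM13 PIEM INNM LIMM st_CUTM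
  have TRI1 : ST_TRI1 := Pool.Agent.Helper3.PW.st_TRI1
  have TRIM : ST_TRIM := st_TRIM TRI1 INTM
  have TLOM : ST_TLOM := st_TLOM TRIM ATTM APXM LMTM QHM INTM
  exact ⟨INTM, main_p 13 MOMM TLOM⟩

end Pool.Agent.Helper95.PW
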